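import Mathlib

/-! Gauge lemma on hierarchical products of stars (for MP_971383_co).
A region is a tuple `s : ℕ → Option C` (level `j` is switched off, or shows the cube `c` of level `j`).
`Act c` is the set of coarser levels whose surface crosses the cube `c`. -/

namespace Pool.Agent.Helper64.Gauge

open Finset

/-- a bi-invariant pseudo-distance on a group -/
structure BiInv {G : Type*} [Group G] (D : G → G → ℝ) : Prop where
  self : ∀ g, D g g = 0
  symm : ∀ g h, D g h = D h g
  tri : ∀ g h k, D g k ≤ D g h + D h k
  left : ∀ k g h, D (k * g) (k * h) = D g h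
  right : ∀ k g h, D (g * k) (h * k) = D g h

namespace BiInv

variable {G : Type*} [Group G] {D : G → G → ℝ}

lemma nonneg (hD : BiInv D) (g h : G) : 0 ≤ D g h := by
  have := hD.tri g h g
  rw [hD.self, hD.symm h g] at this
  linarith

lemma mul (hD : BiInv D) (g g' h h' : G) : D (g * h) (g' * h') ≤ D g g' + D h h' := by
  have := hD.tri (g * h) (g' * h) (g' * h')
  rw [hD.right, hD.left] at this
  exact this

lemma inv (hD : BiInv D) (g h : G) : D g⁻¹ h⁻¹ = D g h := by
  have h1 := hD.left g g⁻¹ h⁻¹
  have h2 := hD.right h (g * g⁻¹) (g * h⁻¹)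
  rw [← h1, ← h2, mul_inv_cancel, one_mul, mul_assoc, inv_mul_cancel, mul_one, hD.symm]

end BiInv

variable {C : Type*}

/-- switch level `a` off -/
def off (a : ℕ) (s : ℕ → Option C) : ℕ → Option C := Function.update s a none

@[simp] lemma off_self (a : ℕ) (s : ℕ → Option C) : off a s a = none := by simp [off]
lemma off_ne {a c : ℕ} (h : c ≠ a) (s : ℕ → Option C) : off a s c = s c := by simp [off, h]
lemma off_comm (a b : ℕ) (s : ℕ → Option C) : off a (off b s) = off b (off a s) := by
  funext c
  by_cases ha : c = a
  · subst ha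
    by_cases hb : c = b
    · subst hb; simp
    · rw [off_self, off_ne hb, off_self]
  · by_cases hb : c = b
    · subst hb; rw [off_ne ha, off_self, off_self]
    · rw [off_ne ha, off_ne hb, off_ne hb, off_ne ha]

/-- levels that are switched on -/
def supp (L : ℕ) (s : ℕ → Option C) : Finset ℕ := (range L).filter fun j => (s j).isSome

lemma mem_supp {L : ℕ} {s : ℕ → Option C} {j : ℕ} : j ∈ supp L s ↔ j < L ∧ (s j).isSome := by
  simp [supp]

lemma supp_off (L : ℕ) (a : ℕ) (s : ℕ → Option C) : supp L (off a s) = (supp L s).erase a := by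
  ext j
  rw [mem_supp, mem_erase, mem_supp]
  by_cases h : j = a
  · subst h; simp
  · rw [off_ne h]; simp [h]

/-- the lowest level that is on, if there is one (else `0`) -/
noncomputable def low (L : ℕ) (s : ℕ → Option C) : ℕ :=
  if h : (supp L s).Nonempty then (supp L s).min' h else 0

lemma low_mem {L : ℕ} {s : ℕ → Option C} (h : (supp L s).Nonempty) : low L s ∈ supp L s := by
  rw [low, dif_pos h]; exact min'_mem _ _

lemma low_le {L : ℕ} {s : ℕ → Option C} {j : ℕ} (h : j ∈ supp L s) : low L s ≤ j := by
  rw [low, dif_pos ⟨j, h⟩]; exact min'_le _ _ h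

lemma low_eq {L : ℕ} {s : ℕ → Option C} {j : ℕ} (h : j ∈ supp L s)
    (h' : ∀ i ∈ supp L s, j ≤ i) : low L s = j :=
  le_antisymm (low_le h) (h' _ (low_mem ⟨j, h⟩))

/-- active levels of a region: levels that are on and whose surface crosses the lowest cube -/
noncomputable def act (L : ℕ) (Act : C → Finset ℕ) (s : ℕ → Option C) : Finset ℕ :=
  ((supp L s).erase (low L s)).filter fun j => ∃ c, s (low L s) = some c ∧ j ∈ Act c

variable {L : ℕ} {Act : C → Finset ℕ}

lemma mem_act {s : ℕ → Option C} {j : ℕ} : j ∈ act L Act s ↔
    (j ≠ low L s ∧ j ∈ supp L s) ∧ ∃ c, s (low L s) = some c ∧ j ∈ Act c := by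
  simp [act]

lemma low_lt_of_mem_act {s : ℕ → Option C} {j : ℕ} (h : j ∈ act L Act s) : low L s < j := by
  rw [mem_act] at h
  exact lt_of_le_of_ne (low_le h.1.2) (Ne.symm h.1.1)

lemma supp_nonempty_of_act {s : ℕ → Option C} (h : (act L Act s).Nonempty) : (supp L s).Nonempty := by
  obtain ⟨j, hj⟩ := h
  exact ⟨j, (mem_act.1 hj).1.2⟩

lemma low_off {s : ℕ → Option C} {a : ℕ} (ha : a ∈ act L Act s) : low L (off a s) = low L s := by
  have h1 := mem_act.1 ha
  apply low_eq
  · rw [supp_off, mem_erase]
    exact ⟨fun h => h1.1.1 h.symm, low_mem ⟨a, h1.1.2⟩⟩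
  · intro i hi
    rw [supp_off, mem_erase] at hi
    exact low_le hi.2

lemma act_off {s : ℕ → Option C} {a : ℕ} (ha : a ∈ act L Act s) :
    act L Act (off a s) = (act L Act s).erase a := by
  have hl := low_off ha
  have hne : low L s ≠ a := (low_lt_of_mem_act ha).ne
  ext j
  rw [mem_act, hl, off_ne hne, supp_off, mem_erase, mem_erase, mem_act]
  tauto

variable {G : Type*} [Group G]

/-- the frames -/
noncomputable def gg (L : ℕ) (Act : C → Finset ℕ) (A : (ℕ → Option C) → ℕ → G)
    (s : ℕ → Option C) : G :=
  if h : (supp L s).Nonempty then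
    if h' : (act L Act s).Nonempty then
      A s ((act L Act s).max' h') * gg L Act A (off ((act L Act s).max' h') s) *
        ((gg L Act A (off (low L s) s))⁻¹ * A (off (low L s) s) ((act L Act s).max' h') *
          gg L Act A (off ((act L Act s).max' h') (off (low L s) s)))⁻¹
    else A s (low L s) * gg L Act A (off (low L s) s)
  else 1
termination_by (supp L s).card
decreasing_by
  · rw [supp_off]
    exact card_lt_card (erase_ssubset (mem_act.1 (max'_mem _ h')).1.2)
  · rw [supp_off]
    exact card_lt_card (erase_ssubset (low_mem h))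
  · rw [supp_off, supp_off]
    exact lt_of_le_of_lt (card_le_card (erase_subset _ _))
      (card_lt_card (erase_ssubset (low_mem h)))
  · rw [supp_off]
    exact card_lt_card (erase_ssubset (low_mem h))

/-- the mismatch of the surface of level `a` at the region `s` -/
noncomputable def mm (L : ℕ) (Act : C → Finset ℕ) (A : (ℕ → Option C) → ℕ → G)
    (s : ℕ → Option C) (a : ℕ) : G :=
  (gg L Act A s)⁻¹ * A s a * gg L Act A (off a s)

variable (A : (ℕ → Option C) → ℕ → G)

lemma mm_exact {s : ℕ → Option C} {a : ℕ} (ha : a ∈ act L Act s)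
    (hmax : ∀ j ∈ act L Act s, j ≤ a) :
    mm L Act A s a = mm L Act A (off (low L s) s) a := by
  have h' : (act L Act s).Nonempty := ⟨a, ha⟩
  have hm : (act L Act s).max' h' = a :=
    le_antisymm (max'_le _ _ _ hmax) (le_max' _ _ ha)
  have hg : gg L Act A s = A s a * gg L Act A (off a s) *
      (mm L Act A (off (low L s) s) a)⁻¹ := by
    rw [gg, dif_pos (supp_nonempty_of_act h'), dif_pos h', hm, mm]
  rw [mm, hg]
  group

lemma mm_low {s : ℕ → Option C} (hs : (supp L s).Nonempty) (h' : act L Act s = ∅) :
    mm L Act A s (low L s) = 1 := by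
  have hg : gg L Act A s = A s (low L s) * gg L Act A (off (low L s) s) := by
    rw [gg, dif_pos hs, dif_neg (by rw [h']; simp)]
  rw [mm, hg]
  group

/-- renormalised mismatch: the levels of `T` are switched off first -/
noncomputable def nn (L : ℕ) (Act : C → Finset ℕ) (A : (ℕ → Option C) → ℕ → G)
    (s : ℕ → Option C) (T : Finset ℕ) (b : ℕ) : G :=
  if h : T.Nonempty then
    mm L Act A s (T.max' h) * nn L Act A (off (T.max' h) s) (T.erase (T.max' h)) b *
      (mm L Act A (off b s) (T.max' h))⁻¹
  else mm L Act A s b
termination_by T.card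
decreasing_by exact card_lt_card (erase_ssubset (max'_mem _ h))

/-- the geometric hypotheses -/
structure Geo (L : ℕ) (Act : C → Finset ℕ) (Rz : (ℕ → Option C) → Prop) (q : ℕ) : Prop where
  off_act : ∀ s, Rz s → ∀ a ∈ act L Act s, Rz (off a s)
  off_low : ∀ s, Rz s → (supp L s).Nonempty → Rz (off (low L s) s)
  shrink : ∀ s, Rz s → ∀ a ∈ act L Act s,
    a = low L (off (low L s) s) ∨ a ∈ act L Act (off (low L s) s)
  card_le : ∀ s, Rz s → (act L Act s).card ≤ q

variable {A} {Rz : (ℕ → Option C) → Prop} {q : ℕ} {D : G → G → ℝ} {ε : ℝ}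

lemma nn_near (hD : BiInv D) (hG : Geo L Act Rz q)
    (hP : ∀ s, Rz s → ∀ a ∈ act L Act s, ∀ b, (b = low L s ∨ b ∈ act L Act s) → a ≠ b →
      D (A s b * A (off b s) a) (A s a * A (off a s) b) ≤ ε)
    (n : ℕ) : ∀ (s : ℕ → Option C) (T : Finset ℕ) (b : ℕ), T.card = n → Rz s →
      T ⊆ act L Act s → (b = low L s ∨ b ∈ act L Act s) → b ∉ T →
      D (mm L Act A s b) (nn L Act A s T b) ≤ n * ε := by
  induction n with
  | zero =>
    intro s T b hn hs hT hb hbT
    have : T = ∅ := card_eq_zero.1 hn
    subst this
    rw [nn, dif_neg (by simp), hD.self]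
    simp
  | succ n ih =>
    intro s T b hn hs hT hb hbT
    have hne : T.Nonempty := by rw [← card_pos, hn]; omega
    rw [nn, dif_pos hne]
    obtain ⟨a, ha⟩ : ∃ a, a = T.max' hne := ⟨_, rfl⟩
    rw [← ha]
    have haT : a ∈ T := by rw [ha]; exact max'_mem _ _
    have haA := hT haT
    have hab : a ≠ b := fun h => hbT (h ▸ haT)
    have hl := low_off haA
    have hlow : b = low L (off a s) ∨ b ∈ act L Act (off a s) := by
      rw [hl, act_off haA, mem_erase]
      rcases hb with h | h
      · exact Or.inl h
      · exact Or.inr ⟨hab.symm, h⟩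
    have h1 := ih (off a s) (T.erase a) b (by rw [card_erase_of_mem haT, hn]; rfl)
      (hG.off_act s hs a haA)
      (by rw [act_off haA]; exact erase_subset_erase a hT) hlow
      (fun h => hbT (mem_of_mem_erase h))
    have h2 : D (mm L Act A s b * mm L Act A (off b s) a)
        (mm L Act A s a * mm L Act A (off a s) b) ≤ ε := by
      have := hP s hs a haA b hb hab
      have e1 : mm L Act A s b * mm L Act A (off b s) a =
          (gg L Act A s)⁻¹ * ((A s b * A (off b s) a) * gg L Act A (off a (off b s))) := by
        simp only [mm]; group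
      have e2 : mm L Act A s a * mm L Act A (off a s) b =
          (gg L Act A s)⁻¹ * ((A s a * A (off a s) b) * gg L Act A (off a (off b s))) := by
        simp only [mm]; rw [off_comm b a]; group
      rw [e1, e2, hD.left, hD.right]
      exact this
    have h3 : D (mm L Act A s b)
        (mm L Act A s a * mm L Act A (off a s) b * (mm L Act A (off b s) a)⁻¹) ≤ ε := by
      have e := hD.right (mm L Act A (off b s) a)⁻¹ (mm L Act A s b * mm L Act A (off b s) a)
        (mm L Act A s a * mm L Act A (off a s) b)
      rw [mul_inv_cancel_right] at e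
      rw [e]; exact h2
    have h4 : D (mm L Act A s a * mm L Act A (off a s) b * (mm L Act A (off b s) a)⁻¹)
        (mm L Act A s a * nn L Act A (off a s) (T.erase a) b * (mm L Act A (off b s) a)⁻¹) ≤
        n * ε := by
      rw [hD.right, hD.left]; exact h1
    have := hD.tri (mm L Act A s b)
      (mm L Act A s a * mm L Act A (off a s) b * (mm L Act A (off b s) a)⁻¹)
      (mm L Act A s a * nn L Act A (off a s) (T.erase a) b * (mm L Act A (off b s) a)⁻¹)
    push_cast
    linarith

lemma nn_exact (hG : Geo L Act Rz q) (n : ℕ) : ∀ (s : ℕ → Option C) (b : ℕ), Rz s →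
    b ∈ act L Act s → ((act L Act s).filter fun a => b < a).card = n →
    nn L Act A s ((act L Act s).filter fun a => b < a) b =
      nn L Act A (off (low L s) s) ((act L Act s).filter fun a => b < a) b := by
  induction n with
  | zero =>
    intro s b hs hb hn
    have hT : ((act L Act s).filter fun a => b < a) = ∅ := card_eq_zero.1 hn
    rw [hT, nn, dif_neg (by simp), nn, dif_neg (by simp)]
    apply mm_exact A hb
    intro j hj
    by_contra hjb
    have : j ∈ ((act L Act s).filter fun a => b < a) := mem_filter.2 ⟨hj, not_le.1 hjb⟩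
    rw [hT] at this
    simp at this
  | succ n ih =>
    intro s b hs hb hn
    have hne : ((act L Act s).filter fun a => b < a).Nonempty := by
      rw [← card_pos, hn]; omega
    rw [nn, dif_pos hne]
    conv_rhs => rw [nn, dif_pos hne]
    obtain ⟨a, ha⟩ : ∃ a, a = ((act L Act s).filter fun a => b < a).max' hne := ⟨_, rfl⟩
    rw [← ha]
    have haT : a ∈ ((act L Act s).filter fun a => b < a) := by rw [ha]; exact max'_mem _ _
    have haA : a ∈ act L Act s := (mem_filter.1 haT).1
    have hba : b < a := (mem_filter.1 haT).2
    have hmax : ∀ j ∈ act L Act s, j ≤ a := by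
      intro j hj
      by_cases hjb : b < j
      · rw [ha]; exact le_max' _ _ (mem_filter.2 ⟨hj, hjb⟩)
      · omega
    have hlow := low_off haA
    have hset : ((act L Act s).filter fun a => b < a).erase a =
        (act L Act (off a s)).filter fun a => b < a := by
      rw [act_off haA, ← filter_erase]
    have h1 : mm L Act A s a = mm L Act A (off (low L s) s) a := mm_exact A haA hmax
    have h2 : nn L Act A (off a s) (((act L Act s).filter fun a => b < a).erase a) b =
        nn L Act A (off a (off (low L s) s)) (((act L Act s).filter fun a => b < a).erase a) b := by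
      rw [hset, off_comm a]
      have hb' : b ∈ act L Act (off a s) := by
        rw [act_off haA, mem_erase]; exact ⟨hba.ne, hb⟩
      have := ih (off a s) b (hG.off_act s hs a haA) hb' (by
        rw [← hset, card_erase_of_mem haT, hn]; rfl)
      rw [hlow] at this
      exact this
    have h3 : mm L Act A (off b s) a = mm L Act A (off b (off (low L s) s)) a := by
      have hlb := low_off hb
      have hab : a ∈ act L Act (off b s) := by
        rw [act_off hb, mem_erase]; exact ⟨hba.ne', haA⟩
      have := mm_exact A hab (by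
        intro j hj
        rw [act_off hb, mem_erase] at hj
        exact hmax j hj.2)
      rw [hlb] at this
      rw [this, off_comm b]
    rw [h1, h2, h3]

lemma corr (hD : BiInv D) (hG : Geo L Act Rz q)
    (hP : ∀ s, Rz s → ∀ a ∈ act L Act s, ∀ b, (b = low L s ∨ b ∈ act L Act s) → a ≠ b →
      D (A s b * A (off b s) a) (A s a * A (off a s) b) ≤ ε)
    (n : ℕ) : ∀ (s : ℕ → Option C), (act L Act s).card = n → Rz s → (supp L s).Nonempty →
      D (mm L Act A s (low L s)) 1 ≤ n * ε := by
  induction n with
  | zero =>
    intro s hn hs hne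
    rw [mm_low A hne (card_eq_zero.1 hn), hD.self]
    simp
  | succ n ih =>
    intro s hn hs hne
    have hne' : (act L Act s).Nonempty := by rw [← card_pos, hn]; omega
    obtain ⟨a, ha⟩ : ∃ a, a = (act L Act s).max' hne' := ⟨_, rfl⟩
    have haA : a ∈ act L Act s := by rw [ha]; exact max'_mem _ _
    have hmax : ∀ j ∈ act L Act s, j ≤ a := by
      intro j hj; rw [ha]; exact le_max' _ _ hj
    have hl := low_off haA
    have hlt := low_lt_of_mem_act haA
    have hne2 : (supp L (off a s)).Nonempty :=
      ⟨low L s, by rw [supp_off, mem_erase]; exact ⟨hlt.ne, low_mem hne⟩⟩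
    have h1 := ih (off a s) (by rw [act_off haA, card_erase_of_mem haA, hn]; rfl)
      (hG.off_act s hs a haA) hne2
    rw [hl] at h1
    have hE := mm_exact A haA hmax
    have h2 := hP s hs a haA (low L s) (Or.inl rfl) hlt.ne'
    have e1 : mm L Act A s (low L s) * mm L Act A (off (low L s) s) a =
        (gg L Act A s)⁻¹ * ((A s (low L s) * A (off (low L s) s) a) *
          gg L Act A (off a (off (low L s) s))) := by
      simp only [mm]; group
    have e2 : mm L Act A s a * mm L Act A (off a s) (low L s) =
        (gg L Act A s)⁻¹ * ((A s a * A (off a s) (low L s)) *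
          gg L Act A (off a (off (low L s) s))) := by
      simp only [mm]; rw [off_comm (low L s) a]; group
    have h3 : D (mm L Act A s (low L s) * mm L Act A (off (low L s) s) a)
        (mm L Act A s a * mm L Act A (off a s) (low L s)) ≤ ε := by
      rw [e1, e2, hD.left, hD.right]; exact h2
    rw [← hE] at h3
    have h4 : D (mm L Act A s a * mm L Act A (off a s) (low L s)) (mm L Act A s a) ≤ n * ε := by
      have := hD.left (mm L Act A s a) (mm L Act A (off a s) (low L s)) 1
      rw [mul_one] at this
      rw [this]; exact h1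
    have h5 : D (mm L Act A s (low L s) * mm L Act A s a) (mm L Act A s a) =
        D (mm L Act A s (low L s)) 1 := by
      have := hD.right (mm L Act A s a) (mm L Act A s (low L s)) 1
      rw [one_mul] at this
      exact this
    have h6 := hD.tri (mm L Act A s (low L s) * mm L Act A s a)
      (mm L Act A s a * mm L Act A (off a s) (low L s)) (mm L Act A s a)
    rw [h5] at h6
    push_cast
    linarith

/-- main estimate for the renormalised mismatch -/
lemma nn_bound (hD : BiInv D) (hε : 0 ≤ ε) (hG : Geo L Act Rz q)
    (hP : ∀ s, Rz s → ∀ a ∈ act L Act s, ∀ b, (b = low L s ∨ b ∈ act L Act s) → a ≠ b →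
      D (A s b * A (off b s) a) (A s a * A (off a s) b) ≤ ε)
    (n : ℕ) : ∀ (s : ℕ → Option C) (b : ℕ), (supp L s).card = n → Rz s → (supp L s).Nonempty →
      (b = low L s ∨ b ∈ act L Act s) →
      D (nn L Act A s ((act L Act s).filter fun a => b < a) b) 1 ≤
        2 * q * ε + 2 * q * ε * (q - (((act L Act s).filter fun a => b < a).card : ℝ)) := by
  induction n using Nat.strong_induction_on with
  | _ n ih =>
    intro s b hn hs hne hb
    have hcard : (((act L Act s).filter fun a => b < a).card : ℝ) ≤ q := by
      exact_mod_cast (card_le_card (filter_subset _ _)).trans (hG.card_le s hs)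
    have hq : (0 : ℝ) ≤ q := Nat.cast_nonneg q
    rcases hb with hb | hb
    · have hT : ((act L Act s).filter fun a => b < a) = act L Act s := by
        apply filter_true_of_mem
        intro j hj
        rw [hb]; exact low_lt_of_mem_act hj
      have h1 := nn_near hD hG hP _ s ((act L Act s).filter fun a => b < a) b rfl hs
        (filter_subset _ _) (Or.inl hb) (by simp)
      have h2 := corr hD hG hP _ s rfl hs hne
      rw [← hb, ← hT] at h2
      have h3 := hD.tri (nn L Act A s ((act L Act s).filter fun a => b < a) b)
        (mm L Act A s b) 1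
      have hs3 := hD.symm (nn L Act A s ((act L Act s).filter fun a => b < a) b) (mm L Act A s b)
      have h4 : (((act L Act s).filter fun a => b < a).card : ℝ) * ε ≤ q * ε :=
        mul_le_mul_of_nonneg_right hcard hε
      have h5 : 0 ≤ 2 * q * ε * (q - (((act L Act s).filter fun a => b < a).card : ℝ)) := by
        apply mul_nonneg
        · positivity
        · linarith
      linarith
    · set l := low L s with hl
      have hex := nn_exact (A := A) hG _ s b hs hb rfl
      rw [hex]
      set s' := off l s with hs'
      set T := ((act L Act s).filter fun a => b < a) with hT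
      set T' := ((act L Act s').filter fun a => b < a) with hT'
      have hR' : Rz s' := hG.off_low s hs hne
      have hbs : b ∈ supp L s' := by
        rw [hs', supp_off, mem_erase]
        exact (mem_act.1 hb).1
      have hne' : (supp L s').Nonempty := ⟨b, hbs⟩
      have hb' : b = low L s' ∨ b ∈ act L Act s' := hG.shrink s hs b hb
      have hlow' : low L s' ≤ b := low_le hbs
      have hsub : T ⊆ T' := by
        intro a ha
        rw [hT, mem_filter] at ha
        rw [hT', mem_filter]
        rcases hG.shrink s hs a ha.1 with h | h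
        · exfalso
          have : low L s' < a := lt_of_le_of_lt hlow' ha.2
          rw [← h] at this
          exact lt_irrefl _ this
        · exact ⟨h, ha.2⟩
      have hIH := ih (supp L s').card (by
        rw [← hn, hs', supp_off]
        exact card_lt_card (erase_ssubset (low_mem hne))) s' b rfl hR' hne' hb'
      rw [← hT'] at hIH
      have hcard' : (T'.card : ℝ) ≤ q := by
        exact_mod_cast (card_le_card (filter_subset _ _)).trans (hG.card_le s' hR')
      by_cases hTT : T = T'
      · rw [hTT]; exact hIH
      · have hlt : T.card < T'.card := card_lt_card (lt_of_le_of_ne hsub hTT)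
        have hbT' : b ∉ T' := by rw [hT']; simp
        have hbT : b ∉ T := fun h => hbT' (hsub h)
        have h1 := nn_near hD hG hP _ s' T b rfl hR'
          (hsub.trans (filter_subset _ _)) hb' hbT
        have h2 := nn_near hD hG hP _ s' T' b rfl hR' (filter_subset _ _) hb' hbT'
        have h3 := hD.tri (nn L Act A s' T b) (mm L Act A s' b) 1
        have h4 := hD.tri (mm L Act A s' b) (nn L Act A s' T' b) 1
        have hs3 := hD.symm (nn L Act A s' T b) (mm L Act A s' b)
        have h5 : (T.card : ℝ) + 1 ≤ T'.card := by exact_mod_cast hlt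
        have h6 : (T.card : ℝ) * ε ≤ q * ε := mul_le_mul_of_nonneg_right (by linarith) hε
        have h7 : (T'.card : ℝ) * ε ≤ q * ε := mul_le_mul_of_nonneg_right hcard' hε
        have h8 : 2 * q * ε * (q - T'.card) + 2 * q * ε ≤ 2 * q * ε * (q - T.card) := by
          have : 2 * q * ε * (q - T.card) - 2 * q * ε * (q - T'.card) =
              2 * q * ε * ((T'.card : ℝ) - T.card) := by ring
          have h9 : 2 * q * ε * 1 ≤ 2 * q * ε * ((T'.card : ℝ) - T.card) :=
            mul_le_mul_of_nonneg_left (by linarith) (by positivity)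
          linarith
        linarith

/-- Gauge lemma: there are frames with uniformly bounded mismatch, whatever the number of levels. -/
theorem gauge (hD : BiInv D) (hε : 0 ≤ ε) (hG : Geo L Act Rz q)
    (hP : ∀ s, Rz s → ∀ a ∈ act L Act s, ∀ b, (b = low L s ∨ b ∈ act L Act s) → a ≠ b →
      D (A s b * A (off b s) a) (A s a * A (off a s) b) ≤ ε) :
    ∃ g : (ℕ → Option C) → G, ∀ s, Rz s → (supp L s).Nonempty → ∀ b,
      (b = low L s ∨ b ∈ act L Act s) →
      D (A s b * g (off b s)) (g s) ≤ (2 * q ^ 2 + 3 * q) * ε := by
  refine ⟨gg L Act A, fun s hs hne b hb => ?_⟩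
  have hcard : (((act L Act s).filter fun a => b < a).card : ℝ) ≤ q := by
    exact_mod_cast (card_le_card (filter_subset _ _)).trans (hG.card_le s hs)
  have hq : (0 : ℝ) ≤ q := Nat.cast_nonneg q
  have h1 := nn_near hD hG hP _ s ((act L Act s).filter fun a => b < a) b rfl hs
    (filter_subset _ _) hb (by simp)
  have h2 := nn_bound hD hε hG hP _ s b rfl hs hne hb
  have h3 := hD.tri (mm L Act A s b) (nn L Act A s ((act L Act s).filter fun a => b < a) b) 1
  have h4 : (((act L Act s).filter fun a => b < a).card : ℝ) * ε ≤ q * ε :=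
    mul_le_mul_of_nonneg_right hcard hε
  have h50 : (0 : ℝ) ≤ (((act L Act s).filter fun a => b < a).card : ℝ) := Nat.cast_nonneg _
  have h5 : 2 * q * ε * (q - (((act L Act s).filter fun a => b < a).card : ℝ)) ≤
      2 * q * ε * q :=
    mul_le_mul_of_nonneg_left (by linarith) (by positivity)
  have h6 : D (A s b * gg L Act A (off b s)) (gg L Act A s) = D (mm L Act A s b) 1 := by
    rw [← hD.left (gg L Act A s) (mm L Act A s b) 1, mul_one, mm]
    congr 1
    group
  rw [h6]
  have h7 : (2 * (q : ℝ) ^ 2 + 3 * q) * ε = q * ε + (2 * q * ε + 2 * q * ε * q) := by ring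
  linarith

end Pool.Agent.Helper64.Gauge
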